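import Pool.Agent.TH733.RT.Use
import Pool.Agent.TH680.NPP.Chg
import Pool.Agent.H620R2.Gauge2.CoverN
import Pool.Agent.H620R2.Gauge2.V7

/-!
# Common translates of independent random oracles: sparse and co-sparse complete sets for `NP`

`xor2 A B` is the symmetric difference of the oracles `A` and `B`, the translate of `A` by `B`.

* For every sequence `B 0, B 1, ...` of oracles there is one oracle `A` such that, relative to every
  translate of `A` by a `B i`, `P = NP` and some sparse set and some co-sparse set are many-one
  complete for `NP`.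
* Let the `B i` be independent random oracles. Almost surely, for every set `I` of numbers there is
  one oracle `A` such that for all `i`, relative to the translate of `A` by `B i`: if `i` is in `I`,
  then `P = NP` and there are sparse and co-sparse sets which are many-one complete for `NP`; if `i`
  is not in `I`, then `P ≠ NP` and no sparse or co-sparse set (in `NP` or not) is hard for `NP` under
  Turing reductions, not even under strong nondeterministic ones.

So the equivalences of Q1 and Q2 are true relative to all these translates, and the set of the `i`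
for which both sides are true can be prescribed.

Proof. `A` codes the computations relative to its translates by the `B i`, `i ∈ I`, masked by
`B i`; on the strings of length at most `n` it depends on `I` only below `log n`; for a fixed `I` the
translate by an independent random oracle is random; the oracles for which `NP` is contained in
`coNP` with polynomial advice form a null set for slowly growing gauges; and a sparse oracle can be
replaced by advice of polynomial length.
-/

set_option autoImplicit false

namespace Pool.Agent.Results.MP_36ce85_lc.IndependentTranslates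

open Pool.Agent.NPC Pool.Agent.H620R2.Gauge Pool.Agent.TH680.NPP
open Pool.Agent.W900.IE (SparseS)
open Pool.Agent.H622R2 (poly_of_polyTime)
open Pool.Agent.TH733.RT (xor2 randomSeq slowG slow_p use_p)
open MeasureTheory

/-- The disjoint union of the oracles `Q` and `A`. -/
def join (Q A : Oracle) : Oracle
  | [] => false
  | false :: z => Q z
  | true :: z => A z

/-- The set `S` is sparse: it has at most `p n` elements of length at most `n`, for a
polynomial `p`. -/
def Sparse (S : Oracle) : Prop :=
  ∃ p : Polynomial ℕ, ∀ n, {x : List Bool | S x = true ∧ x.length ≤ n}.ncard ≤ p.eval n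

/-- The complement of `S` is sparse. -/
def CoSparse (S : Oracle) : Prop := Sparse fun x => !S x

/-- The set `S` is hard for `NP` under polynomial-time Turing reductions relative to `A`. -/
def TuringHard (A S : Oracle) : Prop := ∀ L, IsNP A L → IsP (join A S) L

/-- The set `S` is hard for `NP` under polynomial-time many-one reductions relative to `A`. -/
def ManyOneHard (A S : Oracle) : Prop :=
  ∀ L, IsNP A L → ∃ F : List Bool → List Bool, IsFP A F ∧ ∀ x, x ∈ L ↔ S (F x) = true

/-- The set `S` is complete for `NP` under Turing reductions relative to the oracle `A`. -/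
def TuringComplete (A S : Oracle) : Prop := IsNP A {x | S x = true} ∧ TuringHard A S

/-- The set `S` is complete for `NP` under many-one reductions relative to the oracle `A`. -/
def ManyOneComplete (A S : Oracle) : Prop := IsNP A {x | S x = true} ∧ ManyOneHard A S

/-- The set `S` is hard for `NP` under strong nondeterministic reductions relative to the oracle
`A`: all sets in `NP` are in `coNP` relative to `A` and `S`. -/
def StrongHard (A S : Oracle) : Prop := ∀ L, IsNP A L → IsNP (join A S) Lᶜ

/-- the empty oracle -/
def emp : Oracle := fun _ => false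

theorem sparseS_join {S : Oracle} (hS : Sparse S) (O : Oracle) :
    SparseS (fun q => (join O S q ^^ join O emp q)) := by
  obtain ⟨p, hS⟩ := hS
  obtain ⟨c, hc⟩ := Pool.Agent.W900.IE.poly_le p 0
  refine ⟨c, fun n => ?_⟩
  refine le_trans ?_ (((Nat.le_add_right _ _).trans (hc n)))
  refine le_trans ?_ (hS n)
  have hfin : {x : List Bool | S x = true ∧ x.length ≤ n}.Finite :=
    (List.finite_length_le Bool n).subset fun x hx => hx.2
  rw [← Set.ncard_coe_finset]
  refine Set.ncard_le_ncard_of_injOn (fun v => (List.ofFn v).tail) ?_ ?_ hfin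
  · intro v hv
    rw [Finset.mem_coe, Finset.mem_filter] at hv
    have h1 := hv.2
    have h2 : (List.ofFn v).length = n := List.length_ofFn
    rcases hx : List.ofFn v with _ | ⟨b, z⟩
    · rw [hx] at h1
      simp [join] at h1
    · rw [hx] at h1 h2
      cases b with
      | false => simp [join] at h1
      | true =>
        have h3 : (S z ^^ emp z) = true := h1
        refine ⟨by simpa [emp] using h3, ?_⟩
        rw [List.length_cons] at h2
        simp only [List.tail_cons]
        omega
  · intro v hv v' hv' h
    rw [Finset.mem_coe, Finset.mem_filter] at hv hv'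
    have key : ∀ v : Fin n → Bool, (join O S (List.ofFn v) ^^ join O emp (List.ofFn v)) = true →
        List.ofFn v = true :: (List.ofFn v).tail := by
      intro v h1
      rcases hx : List.ofFn v with _ | ⟨b, z⟩
      · rw [hx] at h1
        simp [join] at h1
      · rw [hx] at h1
        cases b with
        | false => simp [join] at h1
        | true => rfl
    have h1 := key v hv.2
    have h2 := key v' hv'.2
    simp only at h
    exact List.ofFn_injective (by rw [h1, h2, h])

theorem isFP_emp (A : Oracle) : IsFP A (fun q => [join A emp q]) := by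
  have h10 := IsFP.tt (A := A) (Q := fun q => [q.tail])
    (H := fun p => [decide (p.1.head? = some false) && p.2.head?.getD false])
    (Poly.cons (Poly.tail Poly.id) (NPC.Poly.const []))
    (Poly.cons (Poly.and (Poly.decide_eq (Poly.head? (Poly.fst Poly.id)) (NPC.Poly.const _))
      (Poly.head?_getD (Poly.snd Poly.id) false)) (NPC.Poly.const []))
  have h11 : (fun q => [join A emp q]) = fun q =>
      [decide (q.head? = some false) && ((List.map A [q.tail]).head?.getD false)] := by
    funext q
    rcases q with _ | ⟨b, z⟩
    · simp [join]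
    · cases b <;> simp [join, emp]
  rw [h11]
  exact h10

theorem isNP_subst {A D : Oracle} (hD : IsFP A (fun q => [D q])) {L : Set (List Bool)}
    (h : IsNP D L) : IsNP A L := by
  obtain ⟨V, p, hV, hL⟩ := h
  exact ⟨V, p, Pool.Agent.TH680.DT.isFP_subst hD hV, hL⟩

/-- no sparse hard sets if `NP` is not contained in `coNP` with polynomial advice -/
theorem no_sparse {A : Oracle} {L : Set (List Bool)} (h1 : IsNP A L)
    (h2 : ¬ WithAdvice (IsNP A) Lᶜ) {S : Oracle} (hS : Sparse S) : ¬ StrongHard A S := by
  intro hcon
  apply h2
  have h3 : WithAdvice (IsNP (join A S)) Lᶜ := (hcon L h1).withAdvice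
  obtain ⟨L', a, r, h4, h5, h6⟩ := (nppoly_iff (sparseS_join hS A) _).1 h3
  exact ⟨L', a, r, isNP_subst (isFP_emp A) h4, h5, h6⟩

theorem strong_of_turing {A S : Oracle} (h : TuringHard A S) : StrongHard A S :=
  fun L hL => isNP_of_p (isP_compl (h L hL))

/-- a question to `join A S` is answered by one question to `join A Sᶜ` -/
theorem isFP_flip (A S : Oracle) : IsFP (join A fun x => !S x) (fun q => [join A S q]) := by
  have h10 := IsFP.tt (A := join A fun x => !S x) (Q := fun q => [q])
    (H := fun p => [decide (p.1.head? = some true) ^^ p.2.head?.getD false])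
    (Poly.cons Poly.id (NPC.Poly.const []))
    (Poly.cons (Poly.xor (Poly.decide_eq (Poly.head? (Poly.fst Poly.id)) (NPC.Poly.const _))
      (Poly.head?_getD (Poly.snd Poly.id) false)) (NPC.Poly.const []))
  have h11 : (fun q => [join A S q]) = fun q =>
      [decide (q.head? = some true) ^^ ((List.map (join A fun x => !S x) [q]).head?.getD false)] := by
    funext q
    rcases q with _ | ⟨b, z⟩
    · simp [join]
    · cases b <;> simp [join]
  rw [h11]
  exact h10

theorem no_cosparse {A : Oracle} {L : Set (List Bool)} (h1 : IsNP A L)
    (h2 : ¬ WithAdvice (IsNP A) Lᶜ) {S : Oracle} (hS : CoSparse S) : ¬ StrongHard A S :=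
  fun hcon => no_sparse h1 h2 hS fun L hL => isNP_subst (isFP_flip A S) (hcon L hL)

/-- the set with one element, the empty string -/
def single : Oracle := fun x => decide (x = [])

theorem sparse_single : Sparse single := by
  refine ⟨1, fun n => ?_⟩
  have h : {x : List Bool | single x = true ∧ x.length ≤ n} = {[]} := by
    ext x
    simp only [single, decide_eq_true_eq, Set.mem_ofPred_eq, Set.mem_singleton_iff]
    constructor
    · exact fun h => h.1
    · rintro rfl
      simp
  rw [h, Set.ncard_singleton]
  simp

/-- the set of the nonempty strings -/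
def others : Oracle := fun x => !single x

theorem coSparse_others : CoSparse others := by
  have h : (fun x => !others x) = single := by
    funext x
    simp [others]
  unfold CoSparse
  rw [h]
  exact sparse_single

theorem isNP_single (A : Oracle) : IsNP A {x | single x = true} := by
  refine isNP_of_p ⟨_, IsFP.of_poly (Poly.cons (Poly.decide_eq Poly.id (NPC.Poly.const []))
    (NPC.Poly.const [])), fun x => ?_⟩
  simp [single]

theorem isNP_others (A : Oracle) : IsNP A {x | others x = true} := by
  refine isNP_of_p ⟨_, IsFP.of_poly (Poly.cons (Poly.decide_eq Poly.id (NPC.Poly.const [])).not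
    (NPC.Poly.const [])), fun x => ?_⟩
  simp [others, single]

/-- if all of `PSPACE` reduces to the oracle then every nontrivial set is many-one hard for `NP` -/
theorem all_hard {A : Oracle} (h : ∀ L, IsPSPACE A L → Reduces L {x | A x = true})
    {S : Oracle} {y z : List Bool} (hy : S y = true) (hz : S z = false) : ManyOneHard A S := by
  intro L hL
  obtain ⟨q, hq, hqL⟩ := h L hL.isPSPACE
  have hq' := poly_of_polyTime hq
  have hH : Poly (fun p : List Bool × List Bool => if p.2 = [true] then y else z) :=
    Poly.ite (Poly.decide_eq (Poly.snd Poly.id) (NPC.Poly.const _)) (NPC.Poly.const _)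
      (NPC.Poly.const _)
  refine ⟨_, IsFP.tt (Q := fun x => [q x]) (Poly.cons hq' (NPC.Poly.const [])) hH, fun x => ?_⟩
  rw [hqL x, Set.mem_ofPred_eq]
  by_cases hx : A (q x) = true
  · simp [hx, hy]
  · simp [hx, hz]

/-- many-one hardness implies Turing hardness -/
theorem ManyOneHard.turing {A S : Oracle} (h : ManyOneHard A S) : TuringHard A S := by
  intro L hL
  obtain ⟨F, hF, hx⟩ := h L hL
  have h0 : IsFP (join A S) (fun q => [A q]) := by
    have h10 := IsFP.tt (A := join A S) (Q := fun q => [false :: q])
      (H := fun p => [p.2.head?.getD false])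
      (Poly.cons (Poly.cons (NPC.Poly.const false) Poly.id) (NPC.Poly.const []))
      (Poly.cons (Poly.head?_getD (Poly.snd Poly.id) false) (NPC.Poly.const []))
    exact h10
  have h1 : IsFP (join A S) F := Pool.Agent.TH680.DT.isFP_subst h0 hF
  have h2 : IsFP (join A S) (fun q => [S q]) := by
    have h10 := IsFP.tt (A := join A S) (Q := fun q => [true :: q])
      (H := fun p => [p.2.head?.getD false])
      (Poly.cons (Poly.cons (NPC.Poly.const true) Poly.id) (NPC.Poly.const []))
      (Poly.cons (Poly.head?_getD (Poly.snd Poly.id) false) (NPC.Poly.const []))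
    exact h10
  refine ⟨fun x => [S (F x)], h2.comp h1, fun x => ?_⟩
  rw [hx x]
  simp

theorem easy_of {A : Oracle} (h : ∀ L, IsPSPACE A L → Reduces L {x | A x = true}) :
    (∃ S, Sparse S ∧ ManyOneComplete A S) ∧ (∃ S, CoSparse S ∧ ManyOneComplete A S) ∧
      ∀ L, IsNP A L → IsP A L :=
  ⟨⟨single, sparse_single, isNP_single A, all_hard h (y := []) (z := [true]) rfl rfl⟩,
    ⟨others, coSparse_others, isNP_others A, all_hard h (y := [true]) (z := []) rfl rfl⟩,
    fun L hL => isP_of_reduces (h L hL.isPSPACE)⟩

theorem nullS : Null slowG {A : Oracle | WithAdvice (IsNP A) (hitLang A)ᶜ} :=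
  nullN (fun _ hε => (slow_p hε).frequently) _ fun _ hA => hA

theorem result :
    (∀ B : ℕ → Oracle, ∃ A : Oracle, ∀ i,
      (∃ S, Sparse S ∧ ManyOneComplete (xor2 A (B i)) S) ∧
      (∃ S, CoSparse S ∧ ManyOneComplete (xor2 A (B i)) S) ∧
      ∀ L, IsNP (xor2 A (B i)) L → IsP (xor2 A (B i)) L) ∧
    ∀ᵐ B ∂randomSeq, ∀ I : Set ℕ, ∃ A : Oracle, ∀ i,
      (i ∈ I ↔ ∀ L, IsNP (xor2 A (B i)) L → IsP (xor2 A (B i)) L) ∧
      (i ∈ I ↔ ∃ S, Sparse S ∧ TuringComplete (xor2 A (B i)) S) ∧
      (i ∈ I ↔ ∃ S, CoSparse S ∧ TuringComplete (xor2 A (B i)) S) ∧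
      (i ∈ I → (∃ S, Sparse S ∧ ManyOneComplete (xor2 A (B i)) S) ∧
        ∃ S, CoSparse S ∧ ManyOneComplete (xor2 A (B i)) S) ∧
      (i ∉ I → ∀ S, Sparse S ∨ CoSparse S → ¬ StrongHard (xor2 A (B i)) S) := by
  obtain ⟨h1, h2⟩ := use_p nullS
  refine ⟨fun B => ?_, ?_⟩
  · obtain ⟨A, hA⟩ := h1 B
    exact ⟨A, fun i => easy_of (hA i)⟩
  · filter_upwards [h2] with B hB I
    obtain ⟨A, h3, h4⟩ := hB I
    refine ⟨A, fun i => ?_⟩
    by_cases hi : i ∈ I
    · obtain ⟨h5, h6, h7⟩ := easy_of (h3 i hi)
      obtain ⟨S, s1, s2⟩ := h5
      obtain ⟨T, t1, t2⟩ := h6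
      exact ⟨iff_of_true hi h7, iff_of_true hi ⟨S, s1, s2.1, s2.2.turing⟩,
        iff_of_true hi ⟨T, t1, t2.1, t2.2.turing⟩, fun _ => ⟨⟨S, s1, s2⟩, T, t1, t2⟩,
        fun h => absurd hi h⟩
    · have h5 : ∀ S, Sparse S ∨ CoSparse S → ¬ StrongHard (xor2 A (B i)) S := by
        rintro S (hS | hS)
        · exact no_sparse (hitLang_np _) (h4 i hi) hS
        · exact no_cosparse (hitLang_np _) (h4 i hi) hS
      refine ⟨iff_of_false hi fun h => ?_, iff_of_false hi fun ⟨S, h6, h7⟩ =>
        h5 S (Or.inl h6) (strong_of_turing h7.2), iff_of_false hi fun ⟨S, h6, h7⟩ =>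
        h5 S (Or.inr h6) (strong_of_turing h7.2), fun h => absurd h hi, fun _ => h5⟩
      exact h4 i hi (isNP_of_p (isP_compl (h _ (hitLang_np _)))).withAdvice

end Pool.Agent.Results.MP_36ce85_lc.IndependentTranslates
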